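import Pool.Agent.V11259.DefD

/-!
# The infinite defect of a finite word is primitive recursive

Idea: as long as the defect does not increase, each new letter creates a new palindromic suffix. If
the new palindromic suffix is not obtained from the previous one by adding a letter at both ends,
then continuing the previous one periodically creates new palindromic suffixes for ever. This must
happen within `n + 2` steps, where `n` is the length of the word. Hence a word `w` has an infinite
extension with defect at most `k` if and only if it has one of length `(2 ^ (k + 1) - 1) (|w| + 2)`.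
-/

namespace Pool.Agent.Results.MP_a1720d_lc.InfiniteDefect

open Pool.Agent.V11259.Def

theorem result : ∃ f : List ℕ → ℕ, Primrec f ∧ ∀ w : List ℕ, w ≠ [] →
    IsLeast {d : ℕ∞ | ∃ (I : Set ℤ) (z : ℤ → ℕ), IsIndex I ∧ (∀ i ∈ I, z i ∈ w) ∧
      Factor I z w ∧ wdefect I z = d} (f w : ℕ∞) := by
  refine ⟨cinf, primrec_cinf, fun w hw => ?_⟩
  rw [cinf_eq hw]
  exact isLeast_dinf hw

end Pool.Agent.Results.MP_a1720d_lc.InfiniteDefect
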